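import Pool.Agent.Lib.MP_305fdd_al.F2.Core

/-!
# MP_305fdd_al: the free products `C_m * Z` are profinitely rigid. Core data (part A <-> part B)

`Λ` is in the genus of `C_m * Z`, `G` is the central extension of `Λ` by `c` of order two:
`G = {(g, z) ∈ Λ × μ_2m | z ^ 2 = δ g}`, `c = (1, -1)`.  `T : G → K` is a pseudo-character with determinant one,
`T c = -2`.  On the reducible locus `R = Spec k[s, 1/s]`: `T g = z⁻¹ s ^ n + z s ^ (-n)`, `z = χ g`, `n = ν g`.
-/

set_option autoImplicit false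

namespace Pool.Agent.CZ

open MvPolynomial Pool.Agent.F2Ch Pool.Agent.F2W Pool.Agent.F2RF

noncomputable section

/-- Laurent polynomials in `s` -/
abbrev Ls (k : Type) [Field k] : Type := AddMonoidAlgebra k ℤ

/-- `z⁻¹ s ^ n + z s ^ (-n)` -/
def rr {k : Type} [Field k] (z : kˣ) (n : ℤ) : Ls k :=
  AddMonoidAlgebra.single n ((z⁻¹ : kˣ) : k) + AddMonoidAlgebra.single (-n) (z : k)

/-- the constant term -/
def cs {k : Type} [Field k] (f : Ls k) : k := f.coeff 0

theorem smulZ_inj (p : ℕ) [hp : Fact p.Prime] : Function.Injective fun c : ℤ => (p : ℤ) * c := by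
  intro a b h
  have hp0 : (p : ℤ) ≠ 0 := by exact_mod_cast hp.out.ne_zero
  exact mul_left_cancel₀ hp0 h

section
variable (p : ℕ) [hp : Fact p.Prime] (k : Type) [Field k] [CharP k p] [PerfectRing k p]

/-- the toric operator: `c s^(p n) ↦ c^(1/p) s^n`, and `c s^n ↦ 0` if `p` does not divide `n` -/
def ths : Ls k →+ Ls k where
  toFun a := AddMonoidAlgebra.ofCoeff
    (Finsupp.mapRange (F2.rt p k) (map_zero _)
      (Finsupp.comapDomain (fun c : ℤ => (p : ℤ) * c) (AddMonoidAlgebra.coeff a)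
        (smulZ_inj p).injOn))
  map_zero' := by
    ext m
    exact map_zero (F2.rt p k)
  map_add' a b := by
    ext m
    exact map_add (F2.rt p k) _ _

theorem coeff_ths (a : Ls k) (c : ℤ) :
    (ths p k a).coeff c = F2.rt p k (a.coeff ((p : ℤ) * c)) := rfl

end

/-- THE CORE DATA (part A constructs it, part B shows that `Λ` maps onto `C_m * Z`). -/
structure Core (p m : ℕ) [Fact p.Prime] (k K G : Type) [Field k] [CharP k p] [IsAlgClosed k]
    [Field K] [Algebra k K] [Group G] where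
  odd : p ≠ 2
  two_le : 2 ≤ m
  /-- `p ≡ -1` modulo `2 m` -/
  hpm : 2 * m ∣ p + 1
  /-- `k` is the algebraic closure of the prime field -/
  alg : ∀ c : k, ∃ N : ℕ, 0 < N ∧ c ^ p ^ N = c
  fg : Group.FG G
  /-- the pseudo-character -/
  T : G → K
  /-- the two characters -/
  χ : G →* kˣ
  ν : G →* Multiplicative ℤ
  /-- the central element -/
  c : G
  pc : F2.PC T
  irr : F2D.Irr T
  c_comm : ∀ g, c * g = g * c
  c_sq : c * c = 1
  T_c : T c = -2
  χ_c : χ c = -1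
  ν_c : ν c = 1
  χ_pow : ∀ g, χ g ^ (2 * m) = 1
  surj : ∀ z : kˣ, z ^ (2 * m) = 1 → ∀ n : ℤ, ∃ g, χ g = z ∧ ν g = Multiplicative.ofAdd n
  ker : ∀ g, χ g = 1 → ν g = 1 → g ∈ commutator G
  /-- `G / c = Λ` has the finite quotients of a group with two generators: number of lifts of a
  homomorphism to a finite quotient -/
  cnt : ∀ (Q Q' : Type) [Group Q] [Finite Q] [Group Q'] (π : Q →* Q') (θ : G →* Q'),
    Nat.card {f : G →* Q // π.comp f = θ ∧ f c = 1} ≤ Nat.card π.ker ^ 2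
  /-- the trace ring -/
  B : Subalgebra k K
  /-- the number of generators -/
  n : ℕ
  /-- generators of `B` -/
  t : Fin n → K
  j0 : Fin n
  T_mem : ∀ l, T l ∈ B
  adj : Algebra.adjoin k (Set.range T) = B
  mem_B : ∀ f, f ∈ B ↔ ∃ q : MvPolynomial (Fin n) k, aeval t q = f
  fracgen : FracGen k t
  /-- restriction to the reducible locus -/
  res : B →ₐ[k] Ls k
  res_T : ∀ l, res ⟨T l, T_mem l⟩ = rr (χ l) (Multiplicative.toAdd (ν l))
  res_surj : Function.Surjective res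
  /-- the Cartier operator -/
  φ : K → K
  pinv : IsPinv p φ
  one : φ 1 = 1
  tau : ∀ f : B, ∃ N0 : ℕ, ∀ N, N0 ≤ N → φ^[N] (f : K) =
    algebraMap k K ((F2.rt p k)^[N] (cs (res f)))
  log : LogTy p φ
  b0 : Fin (p ^ 2) → K
  ρ0 : Fin (p ^ 2) → K → K
  pb : IsPB p b0 ρ0
  trdeg : Algebra.trdeg k K = 2
  /-- a uniformiser of the reducible locus -/
  κ0 : B
  κ0_t : t j0 = (κ0 : K)
  κ0_ne : (κ0 : K) ≠ 0
  κ0_res : res κ0 = 0
  /-- `q I ⊆ κ0 B`, `q ∉ I` -/
  q : B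
  q_res : res q ≠ 0
  q_mul : ∀ f : B, res f = 0 → ∃ c : B, q * f = κ0 * c
  hord : ∀ f : K, f ≠ 0 → ∃ (n : ℤ) (a b : B), res a ≠ 0 ∧ res b ≠ 0 ∧
    f * b = (κ0 : K) ^ n * a
  /-- `ord_R` -/
  R : K → ℤ
  R_inz : InZ k p φ R
  R_eq : ∀ (f : K) (n : ℤ) (a b : B), res a ≠ 0 → res b ≠ 0 →
    f * b = (κ0 : K) ^ n * a → R f = n
  R_κ0 : R κ0 = 1
  R_nn : ∀ f : B, 0 ≤ R f
  R_pos : ∀ f : B, (f : K) ≠ 0 → (0 < R f ↔ res f = 0)
  R_vb : IsVB R ![(κ0 : K)] (fun f _ => R f)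
  /-- `φ` induces the toric operator on the reducible locus -/
  tor : ∀ f : B, ∃ f' : B, res f' = ths p k (res f) ∧ Gt R 0 (φ f - f')
  /-- the semilinear symmetry -/
  ι : K ≃+* K
  ι_k : ∀ c : k, ι (algebraMap k K c) = algebraMap k K (c ^ p)
  ι_T : ∀ g, ι (T g) = T g
  ι_φ : ∀ f, ι (φ f) = φ (ι f)

/-- `G` maps onto `C_m * Z`, and `c` to `1` -/
def Onto (m : ℕ) (G : Type) [Group G] (c : G) : Prop :=
  ∃ f : G →* Monoid.Coprod (Multiplicative (ZMod m)) (Multiplicative ℤ),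
    Function.Surjective f ∧ f c = 1

namespace Core

variable {p m : ℕ} [Fact p.Prime] {k K G : Type} [Field k] [CharP k p] [IsAlgClosed k]
  [Field K] [Algebra k K] [Group G] (C : Core p m k K G)

/-- `ord_R` as a real valuation -/
def RR (f : K) : ℝ := (C.R f : ℝ)

/-- `T l` as an element of `B` -/
def TB (l : G) : C.B := ⟨C.T l, C.T_mem l⟩

/-- the nonzero elements of `B` which vanish on the reducible locus -/
def I : Set K := {f | f ≠ 0 ∧ ∃ h : f ∈ C.B, C.res ⟨f, h⟩ = 0}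

/-- `l` is exact: `T l` is the constant `z + 1/z`, and `ν l = 0` -/
def Ex (l : G) : Prop := C.ν l = 1 ∧ C.T l = algebraMap k K (C.χ l : k) + algebraMap k K ((C.χ l)⁻¹ : kˣ)

/-- the valuation `V ∘ ι` -/
def tw {Γ : Type} (V : K → Γ) : K → Γ := fun f => V (C.ι f)

end Core

end

end Pool.Agent.CZ
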